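import Mathlib

/-! Lower bound for schemes that return the name of the lowest common ancestor. -/

namespace Pool.Agent.H690R3.Lab

/-- longest common initial segment of two bit strings -/
def lcp : List Bool → List Bool → List Bool
  | a :: u, b :: v => if a = b then a :: lcp u v else []
  | _, _ => []

@[simp] lemma lcp_nil_left (v : List Bool) : lcp [] v = [] := by simp [lcp]

@[simp] lemma lcp_nil_right (v : List Bool) : lcp v [] = [] := by cases v <;> simp [lcp]

@[simp] lemma lcp_cons_same (a : Bool) (u v : List Bool) : lcp (a :: u) (a :: v) = a :: lcp u v := by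
  simp [lcp]

lemma lcp_cons_ne {a b : Bool} (h : a ≠ b) (u v : List Bool) : lcp (a :: u) (b :: v) = [] := by
  simp [lcp, h]

lemma lcp_comm (u v : List Bool) : lcp u v = lcp v u := by
  induction u generalizing v with
  | nil => simp
  | cons a u ih =>
    cases v with
    | nil => simp
    | cons b v =>
      by_cases h : a = b
      · subst h; simp [ih]
      · rw [lcp_cons_ne h, lcp_cons_ne (Ne.symm h)]

/-- `D` returns the names of lowest common ancestors in all trees of height `h` with names in `N`. -/
def Sch (N W : Type) (D : W → W → N) (h : ℕ) : Prop :=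
  ∀ T : List Bool → N, ∃ μ : List Bool → W, ∀ u v : List Bool, u.length = h → v.length = h → u ≠ v →
    D (μ u) (μ v) = T (lcp u v)

theorem sch_bound (h : ℕ) : ∀ (N W : Type) [Fintype N] [Nonempty N] [Fintype W] (D : W → W → N),
    Sch N W D h → Fintype.card N ^ h ≤ Fintype.card W ^ 2 := by
  classical
  induction h with
  | zero =>
    intro N W _ _ _ D hS
    obtain ⟨μ, _⟩ := hS (fun _ => Classical.arbitrary N)
    have : 0 < Fintype.card W := Fintype.card_pos_iff.2 ⟨μ []⟩
    simpa using Nat.one_le_pow _ _ this
  | succ h ih =>
    intro N W _ _ _ D hS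
    -- the pairs decoding to `a`
    have key : ∀ a : N, Fintype.card N ^ h ≤ Fintype.card {p : W × W // D p.1 p.2 = a} := by
      intro a
      have hsch : Sch (N × N) {p : W × W // D p.1 p.2 = a}
          (fun p q => (D p.1.1 q.1.1, D p.1.2 q.1.2)) h := by
        intro S
        let T : List Bool → N := fun w =>
          match w with
          | [] => a
          | false :: w => (S w).1
          | true :: w => (S w).2
        obtain ⟨μ, hμ⟩ := hS T
        have hroot : ∀ w : List Bool, w.length = h → D (μ (false :: w)) (μ (true :: w)) = a := by
          intro w hw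
          rw [hμ (false :: w) (true :: w) (by simp [hw]) (by simp [hw]) (by simp),
            lcp_cons_ne (by simp)]
        refine ⟨fun w => if hw : w.length = h then ⟨(μ (false :: w), μ (true :: w)), hroot w hw⟩
          else ⟨(μ (false :: List.replicate h false), μ (true :: List.replicate h false)),
            hroot _ (by simp)⟩, ?_⟩
        intro u v hu hv huv
        simp only [hu, hv, dif_pos]
        rw [hμ (false :: u) (false :: v) (by simp [hu]) (by simp [hv]) (by simpa using huv),
          hμ (true :: u) (true :: v) (by simp [hu]) (by simp [hv]) (by simpa using huv)]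
        simp [T]
      have h1 := ih (N × N) {p : W × W // D p.1 p.2 = a} _ hsch
      rw [Fintype.card_prod, ← pow_two, ← pow_mul, mul_comm 2 h, pow_mul] at h1
      exact (Nat.pow_le_pow_iff_left (by norm_num)).1 h1
    have hsum : Fintype.card (W × W) = ∑ a : N, Fintype.card {p : W × W // D p.1 p.2 = a} := by
      rw [← Fintype.card_sigma]
      exact Fintype.card_congr (Equiv.sigmaFiberEquiv (fun p : W × W => D p.1 p.2)).symm
    have h2 : Fintype.card N * Fintype.card N ^ h ≤ Fintype.card (W × W) := by
      rw [hsum, ← smul_eq_mul, ← Finset.card_univ (α := N)]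
      rw [← Finset.sum_const]
      exact Finset.sum_le_sum fun a _ => key a
    rw [Fintype.card_prod] at h2
    calc Fintype.card N ^ (h + 1) = Fintype.card N * Fintype.card N ^ h := by ring
      _ ≤ Fintype.card W * Fintype.card W := h2
      _ = Fintype.card W ^ 2 := by ring

end Pool.Agent.H690R3.Lab
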