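import Mathlib

/-! Adjacency labelling schemes and twin-width. -/

namespace Pool.Agent.H690R3.Lab

open Filter Topology

/-- The class `C` of finite graphs admits an adjacency labelling scheme of size `f`: there is one
decoder `D`, depending only on `C`, such that the vertices of every `n`-vertex graph of `C` can be
labelled by bit strings of length at most `f n` so that two distinct vertices are adjacent exactly
when `D` accepts their labels. -/
def HasScheme (C : ∀ V : Type, SimpleGraph V → Prop) (f : ℕ → ℝ) : Prop :=
  ∃ D : List Bool → List Bool → Bool, ∀ (V : Type) [Fintype V] (G : SimpleGraph V), C V G →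
    ∃ ℓ : V → List Bool, (∀ v, ((ℓ v).length : ℝ) ≤ f (Fintype.card V)) ∧
      ∀ u v, u ≠ v → (G.Adj u v ↔ D (ℓ u) (ℓ v) = true)

/-- The class `C` admits an adjacency labelling scheme of size `(c + o(1)) log n` (base 2); the
`o(1)` term is a function `ε` of `n` tending to `0`, which may depend on `C`. -/
def HasSchemeOfSize (C : ∀ V : Type, SimpleGraph V → Prop) (c : ℝ) : Prop :=
  ∃ ε : ℕ → ℝ, Tendsto ε atTop (𝓝 0) ∧ HasScheme C (fun n => (c + ε n) * Real.logb 2 n)

/-- The parts of `x` and of `y` in the partition `r` are homogeneous: either all edges of `G` are
present between the two parts or none is. -/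
def Homog {V : Type} (G : SimpleGraph V) (r : Setoid V) (x y : V) : Prop :=
  (∀ x' y', r x' x → r y' y → G.Adj x' y') ∨ (∀ x' y', r x' x → r y' y → ¬ G.Adj x' y')

/-- The red degree of the part of `x` in the partition `r` (the degree of this part in the red
graph of the quotient trigraph): the number of other parts that are not homogeneous to it. -/
noncomputable def redDegree {V : Type} (G : SimpleGraph V) (r : Setoid V) (x : V) : ℕ :=
  Set.ncard {q : Quotient r | ∃ y, Quotient.mk r y = q ∧ ¬ r x y ∧ ¬ Homog G r x y}

/-- From the partition `r` one can reach the partition with at most one part by merging two parts at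
a time, so that all red degrees of all partitions on the way are at most `d`. -/
inductive ContractionSeq {V : Type} (G : SimpleGraph V) (d : ℕ) : Setoid V → Prop
  | done (r : Setoid V) (h : ∀ x y, r x y) : ContractionSeq G d r
  | merge (r s : Setoid V) (a b : V)
      (hs : ∀ x y, s x y ↔ r x y ∨ (r x a ∧ r y b) ∨ (r x b ∧ r y a))
      (hr : ∀ x, redDegree G r x ≤ d) (h : ContractionSeq G d s) : ContractionSeq G d r

/-- `G` has twin-width at most `d`: there is a contraction sequence, starting from the partition
into single vertices, of width at most `d`. -/
def TwwLE {V : Type} (G : SimpleGraph V) (d : ℕ) : Prop := ContractionSeq G d ⊥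

end Pool.Agent.H690R3.Lab
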