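import Mathlib
import Pool.Agent.H690R3.Lab.Core
import Pool.Agent.H690R3.Lab.Defs

/-! Adjacency labelling schemes and a lower bound for graphs built from named trees. -/

namespace Pool.Agent.H690R3.Lab

open Filter Topology

/-- the entry of the matrix `M` selected by a row index and a column index -/
def sel {m : ℕ} (M : Fin m → Fin m → Bool) : Fin m ⊕ Fin m → Fin m ⊕ Fin m → Bool
  | .inl i, .inr j => M i j
  | .inr j, .inl i => M i j
  | _, _ => false

lemma sel_comm {m : ℕ} (M : Fin m → Fin m → Bool) (s t : Fin m ⊕ Fin m) : sel M s t = sel M t s := by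
  rcases s with i | i <;> rcases t with j | j <;> rfl

/-- the leaves of the complete binary tree of height `h` -/
abbrev Leaf (h : ℕ) : Type := {w : List Bool // w.length = h}

instance (h : ℕ) : Fintype (Leaf h) := inferInstanceAs (Fintype (List.Vector Bool h))

lemma card_leaf (h : ℕ) : Fintype.card (Leaf h) = 2 ^ h := by
  have := card_vector (α := Bool) h
  rw [Fintype.card_bool] at this
  exact this

/-- The graph of the complete binary tree of height `h` whose inner nodes are named by `m × m`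
matrices: each leaf carries `m` row vertices and `m` column vertices. -/
def namedGraph (h m : ℕ) (T : List Bool → Fin m → Fin m → Bool) :
    SimpleGraph (Leaf h × (Fin m ⊕ Fin m)) where
  Adj x y := x.1 ≠ y.1 ∧ sel (T (lcp x.1.1 y.1.1)) x.2 y.2 = true
  symm := ⟨fun x y hxy => ⟨hxy.1.symm, by rw [lcp_comm, sel_comm]; exact hxy.2⟩⟩
  loopless := ⟨fun x hx => hx.1 rfl⟩

lemma card_labels (L : ℕ) : Fintype.card (Σ k : Fin (L + 1), List.Vector Bool k) ≤ 2 ^ (L + 1) := by
  rw [Fintype.card_sigma]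
  simp only [card_vector, Fintype.card_bool]
  rw [Fin.sum_univ_eq_sum_range (fun k => 2 ^ k)]
  exact (Nat.geomSum_lt (le_refl 2) (fun k hk => Finset.mem_range.1 hk)).le

/-- the counting inequality -/
theorem count_bound {C : ∀ V : Type, SimpleGraph V → Prop} {f : ℕ → ℝ} (hf : HasScheme C f) (m : ℕ)
    (hm : 1 ≤ m) (hC : ∀ h T, C _ (namedGraph h m T)) (h : ℕ) :
    (m : ℝ) * h ≤ 4 * (f (2 ^ h * (m + m)) + 1) := by
  obtain ⟨D, hD⟩ := hf
  have hcard : Fintype.card (Leaf h × (Fin m ⊕ Fin m)) = 2 ^ h * (m + m) := by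
    rw [Fintype.card_prod, card_leaf]; simp
  have hf0 : 0 ≤ f (2 ^ h * (m + m)) := by
    obtain ⟨ℓ, h1, _⟩ := hD _ (namedGraph h m fun _ _ _ => false) (hC _ _)
    have := h1 (⟨List.replicate h false, by simp⟩, Sum.inl ⟨0, hm⟩)
    rw [hcard] at this
    exact le_trans (Nat.cast_nonneg _) this
  set L := ⌊f (2 ^ h * (m + m))⌋₊ with hL
  let D' : (Fin m ⊕ Fin m → Σ k : Fin (L + 1), List.Vector Bool k) →
      (Fin m ⊕ Fin m → Σ k : Fin (L + 1), List.Vector Bool k) → (Fin m → Fin m → Bool) :=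
    fun p q i j => D (p (.inl i)).2.1 (q (.inr j)).2.1
  have hS : Sch (Fin m → Fin m → Bool) _ D' h := by
    intro T
    obtain ⟨ℓ, h1, h2⟩ := hD _ (namedGraph h m T) (hC _ _)
    rw [hcard] at h1
    have h1' : ∀ v, (ℓ v).length < L + 1 := fun v => Nat.lt_succ_of_le (Nat.le_floor (h1 v))
    refine ⟨fun w s => if hw : w.length = h then
      ⟨⟨(ℓ (⟨w, hw⟩, s)).length, h1' _⟩, ⟨ℓ (⟨w, hw⟩, s), rfl⟩⟩ else ⟨⟨0, by omega⟩, ⟨[], rfl⟩⟩, ?_⟩
    intro u v hu hv huv
    funext i j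
    simp only [D', hu, hv, dif_pos]
    have h3 := h2 (⟨u, hu⟩, .inl i) (⟨v, hv⟩, .inr j) (by simp)
    simp only [namedGraph, sel] at h3
    have h4 : (⟨u, hu⟩ : Leaf h) ≠ ⟨v, hv⟩ := fun h => huv (congrArg Subtype.val h)
    rw [Bool.eq_iff_iff, ← h3]
    exact ⟨fun h => h.2, fun h => ⟨h4, h⟩⟩
  have key := sch_bound h _ _ D' hS
  have c1 : Fintype.card (Fin m → Fin m → Bool) = 2 ^ (m * m) := by
    simp [pow_mul]
  have c2 : Fintype.card (Fin m ⊕ Fin m → Σ k : Fin (L + 1), List.Vector Bool k) ≤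
      2 ^ ((L + 1) * (m + m)) := by
    rw [Fintype.card_fun, Fintype.card_sum, Fintype.card_fin, pow_mul]
    exact Nat.pow_le_pow_left (card_labels L) _
  rw [c1] at key
  have key2 : 2 ^ (m * m * h) ≤ 2 ^ ((L + 1) * (m + m) * 2) := by
    calc 2 ^ (m * m * h) = (2 ^ (m * m)) ^ h := by rw [pow_mul]
      _ ≤ _ := key
      _ ≤ (2 ^ ((L + 1) * (m + m))) ^ 2 := Nat.pow_le_pow_left c2 _
      _ = _ := by rw [← pow_mul]
  have key3 : m * m * h ≤ (L + 1) * (m + m) * 2 := (Nat.pow_le_pow_iff_right (by norm_num)).1 key2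
  have key4 : m * h ≤ 4 * (L + 1) := by
    have : m * (m * h) ≤ m * (4 * (L + 1)) := by nlinarith
    exact Nat.le_of_mul_le_mul_left this hm
  have key5 : (m : ℝ) * h ≤ 4 * ((L : ℝ) + 1) := by exact_mod_cast key4
  have hLf : (L : ℝ) ≤ f (2 ^ h * (m + m)) := Nat.floor_le hf0
  linarith

/-- The leading constant of a labelling scheme of a class containing all `namedGraph h m T` is at
least `m / 4`. -/
theorem const_bound {C : ∀ V : Type, SimpleGraph V → Prop} {c : ℝ} (hc : HasSchemeOfSize C c) (m : ℕ)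
    (hm : 1 ≤ m) (hC : ∀ h T, C _ (namedGraph h m T)) : (m : ℝ) ≤ 4 * c := by
  obtain ⟨ε, hε, hS⟩ := hc
  have h1 := count_bound hS m hm hC
  set B := Real.logb 2 (m + m : ℝ) with hB
  have hlog : ∀ h : ℕ, Real.logb 2 ((2 ^ h * (m + m) : ℕ) : ℝ) = h + B := by
    intro h
    push_cast
    rw [Real.logb_mul (by positivity) (by positivity), Real.logb_pow, Real.logb_self_eq_one (by norm_num)]
    simp [hB]
  have hn : Tendsto (fun h : ℕ => 2 ^ h * (m + m)) atTop atTop := by
    apply tendsto_atTop_mono (fun h => ?_) tendsto_id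
    have : h < 2 ^ h := Nat.lt_two_pow_self
    show h ≤ 2 ^ h * (m + m)
    nlinarith
  have hε' : Tendsto (fun h : ℕ => ε (2 ^ h * (m + m))) atTop (𝓝 0) := hε.comp hn
  have hinv : Tendsto (fun h : ℕ => ((h : ℝ))⁻¹) atTop (𝓝 0) := tendsto_inv_atTop_nhds_zero_nat
  have hlim : Tendsto (fun h : ℕ => 4 * ((c + ε (2 ^ h * (m + m))) * (1 + B * (h : ℝ)⁻¹) + (h : ℝ)⁻¹))
      atTop (𝓝 (4 * ((c + 0) * (1 + B * 0) + 0))) := by
    apply Tendsto.const_mul
    apply Tendsto.add _ hinv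
    apply Tendsto.mul
    · exact tendsto_const_nhds.add hε'
    · exact tendsto_const_nhds.add (hinv.const_mul B)
  have : (m : ℝ) ≤ 4 * ((c + 0) * (1 + B * 0) + 0) := by
    apply ge_of_tendsto hlim
    filter_upwards [eventually_gt_atTop 0] with h hh
    have h2 := h1 h
    simp only [hlog] at h2
    have hh' : (0 : ℝ) < h := by exact_mod_cast hh
    rw [show 4 * ((c + ε (2 ^ h * (m + m))) * (1 + B * (h : ℝ)⁻¹) + (h : ℝ)⁻¹) =
      (4 * ((c + ε (2 ^ h * (m + m))) * (h + B) + 1)) / h by field_simp]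
    rw [le_div_iff₀ hh']
    exact h2
  simpa using this

end Pool.Agent.H690R3.Lab
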