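import Pool.Agent.H175R2.Cw
import Pool.Agent.H690R3.Lab.Scheme

/-! The graphs of named trees have bounded clique-width. -/

namespace Pool.Agent.H690R3.Lab

open Finset Classical Pool.Agent.H175R2

lemma lcp_take (k : ℕ) : ∀ u v : List Bool, u.take k ≠ v.take k →
    lcp u v = lcp (u.take k) (v.take k) := by
  induction k with
  | zero => intro u v h; simp at h
  | succ k ih =>
    intro u v h
    cases u with
    | nil => simp
    | cons a u =>
      cases v with
      | nil => simp
      | cons b v =>
        by_cases hab : a = b
        · subst hab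
          simp only [List.take_succ_cons, ne_eq, List.cons.injEq, true_and] at h
          simp [ih u v h]
        · simp only [List.take_succ_cons]
          rw [lcp_cons_ne hab, lcp_cons_ne hab]

lemma dt_node' {V : Type} {G : SimpleGraph V} {K : ℕ} {R A B C : Finset V}
    (hC : ∀ x, x ∈ C ↔ x ∈ A ∨ x ∈ B) (hd : Disjoint A B) (hA : DT G K R A) (hB : DT G K R B)
    (h : nt G R C ≤ K) : DT G K R C := by
  have : C = A ∪ B := by ext x; rw [hC, mem_union]
  rw [this] at h ⊢
  exact DT.node hd hA hB h

lemma dt_small {V : Type} {G : SimpleGraph V} {K : ℕ} {R : Finset V} (A : Finset V)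
    (hA : A.Nonempty) : A.card ≤ K → DT G K R A := by
  induction hA using Finset.Nonempty.cons_induction with
  | singleton a => intro _; exact DT.leaf a
  | cons a s ha hs ih =>
    intro hc
    rw [card_cons] at hc
    rw [cons_eq_insert, insert_eq]
    refine DT.node (by simpa using ha) (DT.leaf a) (ih (by omega)) ?_
    refine (nt_le_boundary (F := {a} ∪ s) (fun x hx _ => hx)).trans ?_
    rw [← insert_eq, card_insert_of_notMem ha]
    exact hc

/-- the vertices below the node `z` -/
noncomputable def below (h m : ℕ) (z : List Bool) : Finset (Leaf h × (Fin m ⊕ Fin m)) :=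
  univ.filter (fun x => x.1.1.take z.length = z)

lemma mem_below {h m : ℕ} {z : List Bool} {x : Leaf h × (Fin m ⊕ Fin m)} :
    x ∈ below h m z ↔ x.1.1.take z.length = z := by simp [below]

lemma adj_iff_of_take {h m : ℕ} {T : List Bool → Fin m → Fin m → Bool} {k : ℕ}
    {x y w : Leaf h × (Fin m ⊕ Fin m)} (hxy : x.1.1.take k = y.1.1.take k)
    (h2 : x.2 = y.2) (hw : x.1.1.take k ≠ w.1.1.take k) :
    (namedGraph h m T).Adj x w ↔ (namedGraph h m T).Adj y w := by
  have hw' : y.1.1.take k ≠ w.1.1.take k := hxy ▸ hw
  have e1 : x.1 ≠ w.1 := fun h => hw (by rw [h])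
  have e2 : y.1 ≠ w.1 := fun h => hw' (by rw [h])
  simp only [namedGraph]
  rw [lcp_take k _ _ hw, lcp_take k _ _ hw', hxy, h2]
  simp [e1, e2]

lemma dt_below {h m : ℕ} (hm : 1 ≤ m) (T : List Bool → Fin m → Fin m → Bool) :
    ∀ (d : ℕ) (z : List Bool), z.length + d = h →
      DT (namedGraph h m T) (m + m) univ (below h m z) := by
  intro d
  induction d with
  | zero =>
    intro z hz
    have hz' : z.length = h := by simpa using hz
    have hne : (below h m z).Nonempty := ⟨(⟨z, hz'⟩, .inl ⟨0, hm⟩), by rw [mem_below]; simp⟩
    apply dt_small _ hne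
    have hc : (below h m z).card ≤ (univ : Finset (Fin m ⊕ Fin m)).card := by
      apply card_le_card_of_injOn (fun x => x.2) (fun _ _ => by simp)
      intro x hx y hy hxy
      rw [mem_coe, mem_below] at hx hy
      have hx' : x.1.1 = z := by
        rw [← hx, List.take_of_length_le]
        rw [x.1.2, hz']
      have hy' : y.1.1 = z := by
        rw [← hy, List.take_of_length_le]
        rw [y.1.2, hz']
      exact Prod.ext (Subtype.ext (hx'.trans hy'.symm)) hxy
    refine hc.trans ?_
    simp
  | succ d ih =>
    intro z hz
    have h0 := ih (z ++ [false]) (by simp; omega)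
    have h1 := ih (z ++ [true]) (by simp; omega)
    have hsplit : ∀ x : Leaf h × (Fin m ⊕ Fin m), ∀ b : Bool,
        (x.1.1.take (z ++ [b]).length = z ++ [b] ↔ x.1.1.take z.length = z ∧
          x.1.1[z.length]? = some b) := by
      intro x b
      have hl : z.length < x.1.1.length := by rw [x.1.2]; omega
      rw [List.length_append, List.length_singleton, List.take_add_one, List.getElem?_eq_getElem hl]
      simp only [Option.toList_some, Option.some.injEq]
      constructor
      · intro h
        have := List.append_inj' h rfl
        simpa using this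
      · rintro ⟨h1, h2⟩
        rw [h1, h2]
    have hu : ∀ x, x ∈ below h m z ↔ x ∈ below h m (z ++ [false]) ∨ x ∈ below h m (z ++ [true]) := by
      intro x
      rw [mem_below, mem_below, mem_below, hsplit, hsplit]
      have hl : z.length < x.1.1.length := by rw [x.1.2]; omega
      rw [List.getElem?_eq_getElem hl]
      cases x.1.1[z.length] <;> simp
    have hd : Disjoint (below h m (z ++ [false])) (below h m (z ++ [true])) := by
      rw [Finset.disjoint_left]
      intro x hx hx'
      rw [mem_below, hsplit] at hx hx'
      rw [hx.2] at hx'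
      simp at hx'
    refine dt_node' hu hd h0 h1 ?_
    refine (nt_le_of_label (univ : Finset (Fin m ⊕ Fin m)) (fun x => x.2) (fun _ _ _ => mem_univ _)
      (fun x hx y hy _ _ hl => ?_)).trans (by simp)
    rw [mem_below] at hx hy
    ext w
    rw [mem_on, mem_on]
    refine and_congr_right fun hw => ?_
    have hw' : x.1.1.take z.length ≠ w.1.1.take z.length := by
      rw [hx]
      intro h
      exact hw.2 (mem_below.2 h.symm)
    exact adj_iff_of_take (hx.trans hy.symm) hl hw'

theorem cwLE_named {m : ℕ} (hm : 1 ≤ m) (h : ℕ) (T : List Bool → Fin m → Fin m → Bool) :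
    CwLE (namedGraph h m T) (3 * (m + m + 1)) := by
  apply cwLE_of_dt
  have h1 := dt_below (h := h) hm T h [] (by simp)
  have h2 : below h m [] = univ := by
    ext x; simp [mem_below]
  rw [h2] at h1
  exact h1

end Pool.Agent.H690R3.Lab
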