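import Pool.Agent.H690R3.Lab.CwNamed

/-! Twin-width of the graphs of named trees. -/

namespace Pool.Agent.H690R3.Lab

/-- merging the parts of `a` and `b` -/
def mrg {V : Type} (r : Setoid V) (a b : V) : Setoid V where
  r x y := r x y ∨ (r x a ∧ r y b) ∨ (r x b ∧ r y a)
  iseqv := by
    refine ⟨fun x => Or.inl (r.refl x), ?_, ?_⟩
    · rintro x y (h | ⟨h1, h2⟩ | ⟨h1, h2⟩)
      · exact Or.inl (r.symm h)
      · exact Or.inr (Or.inr ⟨h2, h1⟩)
      · exact Or.inr (Or.inl ⟨h2, h1⟩)
    · rintro x y z (h | ⟨h1, h2⟩ | ⟨h1, h2⟩) (k | ⟨k1, k2⟩ | ⟨k1, k2⟩)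
      · exact Or.inl (r.trans h k)
      · exact Or.inr (Or.inl ⟨r.trans h k1, k2⟩)
      · exact Or.inr (Or.inr ⟨r.trans h k1, k2⟩)
      · exact Or.inr (Or.inl ⟨h1, r.trans (r.symm k) h2⟩)
      · exact Or.inr (Or.inl ⟨h1, k2⟩)
      · exact Or.inl (r.trans h1 (r.symm k2))
      · exact Or.inr (Or.inr ⟨h1, r.trans (r.symm k) h2⟩)
      · exact Or.inl (r.trans h1 (r.symm k2))
      · exact Or.inr (Or.inr ⟨h1, k2⟩)

theorem chain {V : Type} [Finite V] {G : SimpleGraph V} {d : ℕ} {s : Setoid V}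
    (hs : ContractionSeq G d s) : ∀ (n : ℕ) (r : Setoid V), Set.ncard {p : V × V | ¬ r p.1 p.2} ≤ n →
    (∀ x y, r x y → s x y) →
    (∀ q : Setoid V, (∀ x y, r x y → q x y) → (∀ x y, q x y → s x y) → ∀ x, redDegree G q x ≤ d) →
    ContractionSeq G d r := by
  intro n
  induction n with
  | zero =>
    intro r hr _ _
    have h0 : {p : V × V | ¬ r p.1 p.2} = ∅ := by
      rw [← Set.ncard_eq_zero]; omega
    apply ContractionSeq.done
    intro x y
    by_contra hxy
    have : (x, y) ∈ {p : V × V | ¬ r p.1 p.2} := hxy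
    rw [h0] at this
    exact this
  | succ n ih =>
    intro r hr hrs hq
    by_cases hsr : ∀ x y, s x y → r x y
    · have : r = s := by
        ext x y; exact ⟨hrs x y, hsr x y⟩
      rw [this]; exact hs
    · push Not at hsr
      obtain ⟨a, b, hab, hnab⟩ := hsr
      refine ContractionSeq.merge r (mrg r a b) a b (fun _ _ => Iff.rfl)
        (hq r (fun _ _ h => h) hrs) (ih _ ?_ ?_ ?_)
      · have hlt : Set.ncard {p : V × V | ¬ (mrg r a b) p.1 p.2} <
            Set.ncard {p : V × V | ¬ r p.1 p.2} := by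
          apply Set.ncard_lt_ncard _ (Set.toFinite _)
          rw [Set.ssubset_iff_of_subset]
          · exact ⟨(a, b), hnab, fun h => h (Or.inr (Or.inl ⟨r.refl a, r.refl b⟩))⟩
          · intro p hp hp'
            exact hp (Or.inl hp')
        omega
      · rintro x y (h | ⟨h1, h2⟩ | ⟨h1, h2⟩)
        · exact hrs _ _ h
        · exact s.trans (hrs _ _ h1) (s.trans hab (s.symm (hrs _ _ h2)))
        · exact s.trans (hrs _ _ h1) (s.trans (s.symm hab) (s.symm (hrs _ _ h2)))
      · intro q h1 h2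
        exact hq q (fun x y h => h1 x y (Or.inl h)) h2

/-- same slot, same address up to depth `t` -/
def lev (h m t : ℕ) : Setoid (Leaf h × (Fin m ⊕ Fin m)) where
  r x y := x.2 = y.2 ∧ x.1.1.take t = y.1.1.take t
  iseqv := ⟨fun _ => ⟨rfl, rfl⟩, fun h => ⟨h.1.symm, h.2.symm⟩,
    fun h k => ⟨h.1.trans k.1, h.2.trans k.2⟩⟩

lemma lev_rel {h m t : ℕ} {x y : Leaf h × (Fin m ⊕ Fin m)} :
    (lev h m t) x y ↔ x.2 = y.2 ∧ x.1.1.take t = y.1.1.take t := Iff.rfl

/-- few red neighbours when the red neighbours are described by few codes -/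
lemma red_le {V α : Type} [Fintype α] {G : SimpleGraph V} {q : Setoid V} {x : V} (code : V → α)
    (h : ∀ y z, ¬ Homog G q x y → ¬ Homog G q x z → code y = code z → q y z) :
    redDegree G q x ≤ Fintype.card α := by
  classical
  let φ : α → Quotient q := fun a =>
    if hy : ∃ y, ¬ Homog G q x y ∧ code y = a then Quotient.mk q hy.choose else Quotient.mk q x
  have hsub : {c : Quotient q | ∃ y, Quotient.mk q y = c ∧ ¬ q x y ∧ ¬ Homog G q x y} ⊆
      Set.range φ := by
    rintro c ⟨y, rfl, _, hy⟩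
    refine ⟨code y, ?_⟩
    have he : ∃ z, ¬ Homog G q x z ∧ code z = code y := ⟨y, hy, rfl⟩
    simp only [φ, he, dif_pos]
    exact Quotient.sound (h _ _ he.choose_spec.1 hy he.choose_spec.2)
  unfold redDegree
  refine (Set.ncard_le_ncard hsub (Set.finite_range φ)).trans ?_
  rw [← Set.image_univ]
  refine (Set.ncard_image_le (Set.toFinite _)).trans ?_
  rw [Set.ncard_univ, Nat.card_eq_fintype_card]

lemma homog_of_take {h m t : ℕ} {T : List Bool → Fin m → Fin m → Bool}
    {q : Setoid (Leaf h × (Fin m ⊕ Fin m))} (hq : ∀ x y, q x y → (lev h m t) x y)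
    {x y : Leaf h × (Fin m ⊕ Fin m)} (hxy : x.1.1.take t ≠ y.1.1.take t) :
    Homog (namedGraph h m T) q x y := by
  have key : ∀ x' y', q x' x → q y' y →
      ((namedGraph h m T).Adj x' y' ↔ (namedGraph h m T).Adj x y) := by
    intro x' y' hx hy
    have h1 := lev_rel.1 (hq _ _ hx)
    have h2 := lev_rel.1 (hq _ _ hy)
    rw [adj_iff_of_take h1.2 h1.1 (by rw [h1.2, h2.2]; exact hxy), SimpleGraph.adj_comm,
      adj_iff_of_take h2.2 h2.1 (by rw [h2.2]; exact hxy.symm), SimpleGraph.adj_comm]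
  by_cases ha : (namedGraph h m T).Adj x y
  · exact Or.inl fun x' y' hx hy => (key x' y' hx hy).2 ha
  · exact Or.inr fun x' y' hx hy h => ha ((key x' y' hx hy).1 h)

theorem seq_lev (h m : ℕ) (T : List Bool → Fin m → Fin m → Bool) :
    ∀ t, ContractionSeq (namedGraph h m T) (3 * (m + m)) (lev h m t) := by
  intro t
  induction t with
  | zero =>
    refine chain (s := ⊤) (ContractionSeq.done ⊤ fun _ _ => trivial) _ _ le_rfl
      (fun _ _ _ => trivial) ?_
    intro q hq _ x
    refine (red_le (fun y => y.2) ?_).trans (by simp; omega)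
    intro y z _ _ hyz
    exact hq _ _ (lev_rel.2 ⟨hyz, by simp⟩)
  | succ t ih =>
    refine chain ih _ _ le_rfl ?_ ?_
    · intro x y hxy
      have h1 := lev_rel.1 hxy
      refine lev_rel.2 ⟨h1.1, ?_⟩
      have := congrArg (List.take t) h1.2
      simpa [List.take_take] using this
    · intro q hq hq' x
      refine (red_le (fun y => (y.1.1[t]?, y.2)) ?_).trans (le_of_eq ?_)
      · intro y z hy hz hyz
        have hyt : x.1.1.take t = y.1.1.take t := by
          by_contra hc
          exact hy (homog_of_take hq' hc)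
        have hzt : x.1.1.take t = z.1.1.take t := by
          by_contra hc
          exact hz (homog_of_take hq' hc)
        simp only [Prod.mk.injEq] at hyz
        refine hq _ _ (lev_rel.2 ⟨hyz.2, ?_⟩)
        rw [List.take_add_one, List.take_add_one, ← hyt, ← hzt, hyz.1]
      · simp [Fintype.card_option]

theorem tww_named (h m : ℕ) (T : List Bool → Fin m → Fin m → Bool) :
    TwwLE (namedGraph h m T) (3 * (m + m)) := by
  have : (⊥ : Setoid (Leaf h × (Fin m ⊕ Fin m))) = lev h m h := by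
    ext x y
    rw [lev_rel]
    constructor
    · intro hxy
      have : x = y := hxy
      rw [this]; exact ⟨rfl, rfl⟩
    · rintro ⟨h1, h2⟩
      rw [List.take_of_length_le (by rw [x.1.2]), List.take_of_length_le (by rw [y.1.2])] at h2
      exact (Prod.ext (Subtype.ext h2) h1 : x = y)
  unfold TwwLE
  rw [this]
  exact seq_lev h m T h

end Pool.Agent.H690R3.Lab
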